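import Pool.Agent.Helper30_SkewP4.Stmts

/-!
# SKEW: R2 and TR (MP_d1c004_ag)
-/

set_option autoImplicit false

open scoped Matrix

namespace Pool.Agent.SkewP4.H11

variable {Λ : Type} [Ring Λ] [Algebra ℂ Λ] {M : Model Λ} {n : ℕ}

theorem dC0 (W : LamData M n) (B : Basic W) (S : Scal W) :
    W.C0.map M.d = -(W.h • (W.A * W.Q * W.Dh * W.Q * W.Dh)) - W.Dh * W.q * W.Dh * W.Q * W.Dh
      + W.h • (W.Dh * W.Q * W.A * W.Q * W.Dh) + W.Dh * W.Q * W.Dh * W.q * W.Dh
      - W.h • (W.Dh * W.Q * W.Dh * W.Q * W.A) := by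
  have hh : M.s W.h = W.h := S.s_h
  have hq : W.Q.map M.d = W.q := rfl
  have od1 : Od M (W.Dh * W.Q) := S.odDh.mul_ev B.evQ
  have ev2 : Ev M (W.Dh * W.Q * W.Dh) := od1.mul S.odDh
  have ev3 : Ev M (W.Dh * W.Q * W.Dh * W.Q) := ev2.mul B.evQ
  have e1 : (W.Dh * W.Q).map M.d = -(W.h • (W.A * W.Q)) - W.Dh * W.q := by
    rw [S.odDh.map_d_mul, S.dDh, hq, neg_mul, smul_mul']
  have e2 : (W.Dh * W.Q * W.Dh).map M.d = -(W.h • (W.A * W.Q * W.Dh)) - W.Dh * W.q * W.Dh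
      + W.h • (W.Dh * W.Q * W.A) := by
    rw [od1.map_d_mul, e1, S.dDh, sub_mul, neg_mul, smul_mul', mul_neg, mul_smul_ev hh,
      sub_neg_eq_add]
  have e3 : (W.Dh * W.Q * W.Dh * W.Q).map M.d = -(W.h • (W.A * W.Q * W.Dh * W.Q))
      - W.Dh * W.q * W.Dh * W.Q + W.h • (W.Dh * W.Q * W.A * W.Q) + W.Dh * W.Q * W.Dh * W.q := by
    rw [ev2.map_d_mul, e2, hq, add_mul, sub_mul, neg_mul, smul_mul', smul_mul']
  have e4 : (W.Dh * W.Q * W.Dh * W.Q * W.Dh).map M.d = _ := ev3.map_d_mul W.Dh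
  show (W.Dh * W.Q * W.Dh * W.Q * W.Dh).map M.d = _
  rw [e4, e3, S.dDh, add_mul, add_mul, sub_mul, neg_mul, smul_mul', smul_mul', mul_neg,
    mul_smul_ev hh, ← sub_eq_add_neg]

/-- R2 -/
theorem r2 (hB : BasicStmt) (hS : ScalStmt) : R2Stmt := by
  intro Λ _ _ M n W hn
  have B := hB Λ M n W
  have S := hS Λ M n W hn
  have hh : M.s W.h = W.h := S.s_h
  unfold R2
  rw [dC0 W B S]
  have hF : W.q * W.D * W.P = W.F := rfl
  have hom : W.P' * W.D * W.Q * W.D * W.P = W.om := rfl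
  have t1 : W.P' * (W.A * W.Q * W.Dh * W.Q * W.Dh) * W.P = 0 := by
    have : W.P' * (W.A * W.Q * W.Dh * W.Q * W.Dh) * W.P =
        (W.P' * W.A) * (W.Q * W.Dh * W.Q * W.Dh * W.P) := by simp only [mul_assoc]
    rw [this, B.P'A, zero_mul]
  have t2 : W.P' * (W.Dh * W.q * W.Dh * W.Q * W.Dh) * W.P = -(W.Fᵀ * W.om) := by
    have e1 : W.P' * (W.Dh * W.q * W.Dh * W.Q * W.Dh) * W.P =
        (W.P' * W.Dh) * W.q * (W.Dh * W.Q * (W.Dh * W.P)) := by simp only [mul_assoc]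
    rw [e1, S.P'Dh, S.DhP]
    have e2 : W.P' * W.D * W.q = -W.Fᵀ := by rw [B.FT, neg_neg]
    rw [e2]
    have e3 : W.Fᵀ * (W.Dh * W.Q * (W.D * W.P)) = W.Fᵀ * W.om := by
      calc W.Fᵀ * (W.Dh * W.Q * (W.D * W.P)) = (W.Fᵀ * W.P') * (W.Dh * W.Q * (W.D * W.P)) := by
            rw [B.FTP']
        _ = W.Fᵀ * ((W.P' * W.Dh) * W.Q * W.D * W.P) := by simp only [mul_assoc]
        _ = W.Fᵀ * (W.P' * W.D * W.Q * W.D * W.P) := by rw [S.P'Dh]
        _ = W.Fᵀ * W.om := by rw [hom]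
    rw [neg_mul, e3]
  have t3 : W.P' * (W.Dh * W.Q * W.A * W.Q * W.Dh) * W.P = W.om := by
    calc W.P' * (W.Dh * W.Q * W.A * W.Q * W.Dh) * W.P
        = (W.P' * W.Dh) * W.Q * W.A * W.Q * (W.Dh * W.P) := by simp only [mul_assoc]
      _ = (W.P' * W.D * W.Q * W.A) * W.Q * (W.D * W.P) := by
          rw [S.P'Dh, S.DhP]
      _ = W.P' * W.D * W.Q * W.D * W.P := by rw [B.P'DQA]; simp only [mul_assoc]
      _ = W.om := hom
  have t4 : W.P' * (W.Dh * W.Q * W.Dh * W.q * W.Dh) * W.P = W.om * W.F := by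
    calc W.P' * (W.Dh * W.Q * W.Dh * W.q * W.Dh) * W.P
        = (W.P' * W.Dh) * W.Q * W.Dh * (W.q * (W.Dh * W.P)) := by simp only [mul_assoc]
      _ = W.P' * W.D * W.Q * W.Dh * (W.q * (W.D * W.P)) := by rw [S.P'Dh, S.DhP]
      _ = W.P' * W.D * W.Q * W.Dh * W.F := by rw [← mul_assoc W.q, hF]
      _ = W.P' * W.D * W.Q * W.Dh * (W.P * W.F) := by rw [B.PF]
      _ = W.P' * W.D * W.Q * (W.Dh * W.P) * W.F := by simp only [mul_assoc]
      _ = W.P' * W.D * W.Q * W.D * W.P * W.F := by rw [S.DhP]; simp only [mul_assoc]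
      _ = W.om * W.F := by rw [hom]
  have t5 : W.P' * (W.Dh * W.Q * W.Dh * W.Q * W.A) * W.P = 0 := by
    have : W.P' * (W.Dh * W.Q * W.Dh * W.Q * W.A) * W.P =
        W.P' * (W.Dh * W.Q * W.Dh * W.Q) * (W.A * W.P) := by simp only [mul_assoc]
    rw [this, B.AP, mul_zero]
  simp only [mul_add, mul_sub, add_mul, sub_mul, mul_neg, neg_mul, mul_smul_ev hh, smul_mul']
  rw [t1, t2, t3, t4, t5]
  simp only [smul_zero, neg_zero, sub_zero, zero_sub, neg_neg]
  abel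

/-- TR -/
theorem tr (hB : BasicStmt) (hS : ScalStmt) (hP : PsiStmt) (h1 : R1Stmt) (h2 : R2Stmt) :
    TrStmt := by
  intro Λ _ _ M n W hn
  have B := hB Λ M n W
  have S := hS Λ M n W hn
  have P := hP Λ M n W hn
  have r1 : R1 W := h1 Λ M n W hn
  have r2 : R2 W := h2 Λ M n W hn
  unfold R1 at r1
  unfold R2 at r2
  have hh : M.s W.h = W.h := S.s_h
  -- tr (dPsi P) = d tr Psi
  have a1 : (W.Psi.map M.d * W.P).trace = M.d W.Psi.trace := by
    have e1 : W.Psi.map M.d = W.Psi.map M.d * W.P + W.Psi * W.q * W.A := by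
      have := P.odPsi.map_d_mul W.P
      rw [P.PsiP, B.dP, mul_neg, sub_neg_eq_add, ← mul_assoc] at this
      exact this
    have e2 : (W.Psi * W.q * W.A).trace = 0 := by
      rw [← B.evA.trace_mul_comm, ← mul_assoc, P.APsi, zero_mul, Matrix.trace_zero]
    rw [d_trace]
    conv_rhs => rw [e1]
    rw [Matrix.trace_add, e2, add_zero]
  have a2 : (W.Psi.map M.d * W.F).trace = M.d (W.Psi * W.F).trace := by
    rw [d_trace, P.odPsi.map_d_mul, B.dF, mul_neg, sub_neg_eq_add, Matrix.trace_add]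
    have e2 : (W.Psi * (W.q * W.D * W.q * W.A)).trace = 0 := by
      have : W.Psi * (W.q * W.D * W.q * W.A) = (W.Psi * (W.q * W.D * W.q)) * W.A := by
        simp only [mul_assoc]
      rw [this, ← B.evA.trace_mul_comm, ← mul_assoc, P.APsi, zero_mul, Matrix.trace_zero]
    rw [e2, add_zero]
  have a3 : (W.be * W.Fᵀ * W.om).trace = W.t2 := by
    have evFT : Ev M W.Fᵀ := B.evF.transpose
    have e1 : (W.be * W.Fᵀ * W.om)ᵀ = W.om * W.F * W.be := by
      rw [(B.evbe.mul evFT).transpose_mul, B.evbe.transpose_mul, B.omT, B.beT,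
        Matrix.transpose_transpose, mul_assoc]
    rw [← Matrix.trace_transpose, e1, ← B.evbe.trace_mul_comm, ← mul_assoc]
    rfl
  refine ⟨?_, ?_, ?_, ?_⟩
  · show (W.be * W.om).trace = _
    rw [r1, Matrix.trace_sub, Matrix.trace_add, trace_smul', a1]
    rfl
  · show (W.be * W.om * W.F).trace = _
    rw [r1, sub_mul, add_mul, smul_mul', mul_assoc (W.Psi.map M.d), B.PF, Matrix.trace_sub,
      Matrix.trace_add, trace_smul', a2]
  · rw [d_trace, B.evbe.map_d_mul, B.dbe, zero_mul, zero_add]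
    have e1 : (W.be * W.C0.map M.d).trace = (W.be * (W.P' * W.C0.map M.d * W.P)).trace := by
      calc (W.be * W.C0.map M.d).trace = ((W.P * (W.be * W.P')) * W.C0.map M.d).trace := by
            rw [B.beP', B.Pbe]
        _ = (W.P * (W.be * W.P' * W.C0.map M.d)).trace := by simp only [mul_assoc]
        _ = ((W.be * W.P' * W.C0.map M.d) * W.P).trace := B.evP.trace_mul_comm _
        _ = _ := by simp only [mul_assoc]
    rw [e1, r2, mul_add, mul_add, mul_smul_ev hh, ← mul_assoc, ← mul_assoc, Matrix.trace_add,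
      Matrix.trace_add, trace_smul', a3, two_smul]
    show W.t2 + W.t2 + W.h * W.t1 = W.h * W.t1 + W.t2 + W.t2
    abel
  · have e0 : (W.be * W.C0 * W.F).map M.d = W.be * W.C0.map M.d * W.F
        + W.be * W.C0 * (W.q * W.D * W.q) * W.A := by
      rw [(B.evbe.mul_od P.odC0).map_d_mul, B.evbe.map_d_mul, B.dbe, zero_mul, zero_add, B.dF,
        mul_neg, sub_neg_eq_add]
      simp only [mul_assoc]
    have e2 : (W.be * W.C0 * (W.q * W.D * W.q) * W.A).trace = 0 := by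
      rw [← B.evA.trace_mul_comm]
      have : W.A * (W.be * W.C0 * (W.q * W.D * W.q)) = (W.A * W.be) * (W.C0 * (W.q * W.D * W.q)) := by
        simp only [mul_assoc]
      rw [this, B.Abe, zero_mul, Matrix.trace_zero]
    rw [d_trace, e0, Matrix.trace_add, e2, add_zero]
    have e1 : W.be * W.C0.map M.d * W.F = W.be * (W.P' * W.C0.map M.d * W.P) * W.F := by
      calc W.be * W.C0.map M.d * W.F = (W.be * W.P') * W.C0.map M.d * (W.P * W.F) := by
            rw [B.beP', B.PF]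
        _ = _ := by simp only [mul_assoc]
    rw [e1, r2, mul_add, mul_add, mul_smul_ev hh, add_mul, add_mul, smul_mul', ← mul_assoc W.be,
      ← mul_assoc W.be W.om, Matrix.trace_add, Matrix.trace_add, trace_smul']
    show W.t3 + W.t3' + W.h * W.t2 = W.h * W.t2 + W.t3' + W.t3
    abel

end Pool.Agent.SkewP4.H11
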