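import Pool.Agent.Helper30_SkewP4.Stmts

/-!
# SKEW: TZE and GZE (MP_d1c004_ag)
-/

set_option autoImplicit false

open scoped Matrix TensorProduct

namespace Pool.Agent.SkewP4.H11

theorem mem_TK {p q k : ℕ} {g : T} : g ∈ TK p q k ↔
    g ∈ TP R p q ∧ opK g = 0 ∧ opNy g = ((k : ℂ) - q) • g := by
  unfold TK
  rw [Submodule.mem_inf, Submodule.mem_inf, LinearMap.mem_ker, LinearMap.mem_ker,
    LinearMap.sub_apply, LinearMap.smul_apply, LinearMap.id_apply, sub_eq_zero]
  tauto

/-- TZE -/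
theorem tze (hK : TkoStmt) (hO : OprStmt) (hB : OpbStmt) : TzeStmt := by
  intro p k
  induction k with
  | zero =>
    intro g hg _
    exact ⟨g, hg, by simp⟩
  | succ k ih =>
    intro g hg hD
    obtain ⟨g1, g2, g3⟩ := mem_TK.1 hg
    have hg3 : opNy g = ((k : ℂ) + 1) • g := by
      rw [g3]; push_cast; rw [sub_zero]
    have hk0 : ((k : ℂ) + 1) ≠ 0 := by
      have := Nat.cast_add_one_ne_zero (R := ℂ) k
      exact this
    have hE : opE (opD g) = 0 := by
      apply hO.rho_inj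
      rw [← hO.rho_E, hD, map_smul, hO.EE, smul_zero]
    have hN : opNy (opD g) = ((k : ℤ) : ℂ) • opD g := by
      rw [hO.Ny_D, hg3, map_smul, add_smul, one_smul, add_sub_cancel_right]
      norm_num
    obtain ⟨u, hu1, hu2, hu3, -⟩ := hK p 0 k (opD g) (by omega) (hB.D_mem p 0 g g1) hN hE
    have hu4 : opK u = 0 := hB.K_zero p u hu1
    have hg : ((k : ℂ) + 1) • g = opRho u := by
      have h1 := hB.DK p 0 g g1
      rw [g2, map_zero, zero_add, hg3, Nat.cast_zero, zero_smul, add_zero] at h1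
      have h2 := hO.EK u
      rw [hu4, map_zero, zero_add, hu3] at h2
      rw [← h1, h2]
    set u' : T := ((k : ℂ) + 1)⁻¹ • u with hu'
    have hg' : g = opRho u' := by
      rw [hu', map_smul, ← hg, smul_smul, inv_mul_cancel₀ hk0, one_smul]
    have hu'K : u' ∈ TK p 0 k := by
      rw [mem_TK]
      refine ⟨Submodule.smul_mem _ _ hu1, by rw [hu', map_smul, hu4, smul_zero], ?_⟩
      rw [hu', map_smul, hu2, smul_comm, Nat.cast_zero, sub_zero]
      norm_num
    have hDu' : opRho (opD u') = (k : ℂ) • opE u' := by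
      have h3 := hO.D_rho u'
      rw [← hg', ← hu3] at h3
      have h4 : opE u = ((k : ℂ) + 1) • opE u' := by
        rw [hu', map_smul, smul_smul, mul_inv_cancel₀ hk0, one_smul]
      rw [h4, add_smul, one_smul, add_comm] at h3
      exact (add_left_cancel h3).symm
    obtain ⟨z, hz, hz'⟩ := ih u' hu'K hDu'
    refine ⟨z, hz, ?_⟩
    rw [hg', hz', pow_succ']
    rfl

theorem jT_rho_pow (hJ : JtStmt) (k : ℕ) (z : T) : jT ((opRho ^ k) z) = rhoL ^ k * jT z := by
  induction k with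
  | zero => simp
  | succ k ih =>
    rw [pow_succ', pow_succ', Module.End.mul_apply, ← hJ.rho, ih, mul_assoc]

theorem rho_pow_cancel (hJ : JtStmt) (k : ℕ) (a : Lam) (h : rhoL ^ k * a = 0) : a = 0 := by
  induction k with
  | zero => simpa using h
  | succ k ih =>
    apply ih
    apply hJ.rho_cancel
    rw [← mul_assoc, ← pow_succ']
    exact h

theorem rho_pow_comm (hJ : JtStmt) (k : ℕ) (a : Lam) : rhoL ^ k * a = a * rhoL ^ k := by
  induction k with
  | zero => simp
  | succ k ih =>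
    rw [pow_succ, mul_assoc, hJ.rho_comm, ← mul_assoc, ih, mul_assoc]

/-- the differential of a form with denominator -/
theorem d_level (hJ : JtStmt) {pd : Fin 5 → (L →ₗ[ℂ] L)} (hpd : PdProp pd) {k : ℕ} {a : Lam} {g : T}
    (h : rhoL ^ k * a = jT g) (hd : dLam pd a = 0) : opRho (opD g) = (k : ℂ) • opE g := by
  apply hJ.inj
  rw [← hJ.rho, ← hJ.d pd hpd, ← h]
  rcases k with _ | k
  · rw [pow_zero, one_mul, hd, mul_zero, Nat.cast_zero, zero_smul, map_zero]
  · rw [hJ.d_rho pd hpd, hd, mul_zero, zero_add, map_smul, ← hJ.e_mul g, ← h, mul_smul_comm,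
      Nat.cast_succ]
    congr 1
    rw [← mul_assoc, ← pow_succ', ← mul_assoc, ← mul_assoc, rho_pow_comm hJ]

/-- GZE -/
theorem gze (hT : TzeStmt) (hJ : JtStmt) : GzeStmt := by
  intro pd hpd p a ha hd
  obtain ⟨k, g, hg, h⟩ := ha
  obtain ⟨z, hz, rfl⟩ := hT p k g hg (d_level hJ hpd h hd)
  refine ⟨z, hz, ?_⟩
  rw [jT_rho_pow hJ] at h
  rw [← sub_eq_zero]
  apply rho_pow_cancel hJ k
  rw [mul_sub, h, sub_self]

end Pool.Agent.SkewP4.H11
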